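import Pool.Agent.Helper12.XG.St

/-!
# Project XG, module TOP: series bound for large `u`
-/

set_option autoImplicit false

namespace Pool.Agent.Helper64.XG

open Finset Polynomial Pool.Agent.Helper12.XG

theorem choose_id (n b i : ℕ) :
    (n + b + i).choose i * (n + b).choose b = (b + i).choose i * (n + (b + i)).choose (b + i) := by
  have h := Nat.choose_mul (n := n + (b + i)) (k := b + i) (s := i) (by omega)
  have h1 : n + (b + i) - i = n + b := by omega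
  have h2 : b + i - i = b := by omega
  rw [h1, h2] at h
  have h3 : n + b + i = n + (b + i) := by omega
  rw [h3, ← h]
  ring

/-- the expansion of one term -/
theorem term_hasSum (i j b : ℕ) (β u : ℝ) (hu : 0 < u) (hj : (j : ℝ) < u) :
    HasSum (fun k : ℕ => (-1 : ℝ) ^ i * ((k + i).choose i : ℝ) *
      (β * ((k.choose b : ℝ) * (-(j : ℝ)) ^ (k - b))) * (u⁻¹) ^ (k + 1 + i))
      (β * ((-1) ^ i * ((b + i).choose i : ℝ)) * ((u + (j : ℝ))⁻¹) ^ (b + 1 + i)) := by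
  have hinj : Function.Injective (fun n : ℕ => n + b) := fun x y h => by
    simpa using h
  rw [← hinj.hasSum_iff]
  · have hr : ‖(-(j : ℝ) / u)‖ < 1 := by
      rw [norm_div, norm_neg, Real.norm_eq_abs, Real.norm_eq_abs, abs_of_nonneg (Nat.cast_nonneg j),
        abs_of_pos hu, div_lt_one hu]
      exact hj
    have h1 := (hasSum_choose_mul_geometric_of_norm_lt_one (b + i) hr).mul_left
      (β * ((-1) ^ i * ((b + i).choose i : ℝ)) * (u⁻¹) ^ (b + 1 + i))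
    have e1 : β * ((-1) ^ i * ((b + i).choose i : ℝ)) * (u⁻¹) ^ (b + 1 + i) *
        (1 / (1 - -(j : ℝ) / u) ^ (b + i + 1)) =
        β * ((-1) ^ i * ((b + i).choose i : ℝ)) * ((u + (j : ℝ))⁻¹) ^ (b + 1 + i) := by
      have h2 : (1 - -(j : ℝ) / u) = (u + j) * u⁻¹ := by
        field_simp
        ring
      have h3 : b + i + 1 = b + 1 + i := by ring
      have hj0 : (0 : ℝ) ≤ j := Nat.cast_nonneg j
      have h4 : 0 < u + j := by linarith
      rw [h2, h3, mul_pow, mul_assoc]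
      congr 1
      rw [inv_pow, inv_pow]
      field_simp
    rw [e1] at h1
    have e2 : (fun n : ℕ => β * ((-1) ^ i * ((b + i).choose i : ℝ)) * (u⁻¹) ^ (b + 1 + i) *
        (((n + (b + i)).choose (b + i) : ℝ) * (-(j : ℝ) / u) ^ n)) =
        ((fun k : ℕ => (-1 : ℝ) ^ i * ((k + i).choose i : ℝ) *
      (β * ((k.choose b : ℝ) * (-(j : ℝ)) ^ (k - b))) * (u⁻¹) ^ (k + 1 + i)) ∘ fun n => n + b) := by
      funext n
      simp only [Function.comp_apply, Nat.add_sub_cancel]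
      have h5 : (((n + b + i).choose i : ℕ) : ℝ) * ((n + b).choose b : ℝ) =
          ((b + i).choose i : ℝ) * ((n + (b + i)).choose (b + i) : ℝ) := by
        exact_mod_cast choose_id n b i
      have h6 : (u⁻¹) ^ (n + b + 1 + i) = (u⁻¹) ^ n * (u⁻¹) ^ (b + 1 + i) := by
        rw [← pow_add]
        congr 1
        ring
      rw [h6, div_eq_mul_inv, mul_pow]
      calc β * ((-1) ^ i * ((b + i).choose i : ℝ)) * (u⁻¹) ^ (b + 1 + i) *
            (((n + (b + i)).choose (b + i) : ℝ) * ((-(j : ℝ)) ^ n * (u⁻¹) ^ n))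
          = β * (-1) ^ i * (((b + i).choose i : ℝ) * ((n + (b + i)).choose (b + i) : ℝ)) *
            (u⁻¹) ^ (b + 1 + i) * ((-(j : ℝ)) ^ n * (u⁻¹) ^ n) := by ring
        _ = β * (-1) ^ i * ((((n + b + i).choose i : ℕ) : ℝ) * ((n + b).choose b : ℝ)) *
            (u⁻¹) ^ (b + 1 + i) * ((-(j : ℝ)) ^ n * (u⁻¹) ^ n) := by rw [h5]
        _ = (-1) ^ i * ((n + b + i).choose i : ℝ) * (β * (((n + b).choose b : ℝ) *
            (-(j : ℝ)) ^ n)) * ((u⁻¹) ^ n * (u⁻¹) ^ (b + 1 + i)) := by ring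
    rw [e2] at h1
    exact h1
  · intro k hk
    have hkb : k < b := by
      by_contra hc
      exact hk ⟨k - b, by simp; omega⟩
    rw [Nat.choose_eq_zero_of_lt hkb]
    simp

/-- the expansion at infinity -/
theorem fI_hasSum (h q i : ℕ) (β : ℕ → ℕ → ℤ) (u : ℝ) (hu : 4 * ((h : ℝ) + 1) ≤ u) :
    HasSum (fun k : ℕ => (-1 : ℝ) ^ i * ((k + i).choose i : ℝ) * (mom h q β k : ℝ) *
      (u⁻¹) ^ (k + 1 + i)) (fI h q β i u) := by
  have hh0 : (0 : ℝ) ≤ h := Nat.cast_nonneg h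
  have hu0 : 0 < u := by linarith
  have h1 : HasSum (fun k : ℕ => ∑ j ∈ range (h + 1), ∑ b ∈ range q,
      ((-1 : ℝ) ^ i * ((k + i).choose i : ℝ) *
      ((β j b : ℝ) * ((k.choose b : ℝ) * (-(j : ℝ)) ^ (k - b))) * (u⁻¹) ^ (k + 1 + i)))
      (fI h q β i u) := by
    unfold fI
    refine hasSum_sum fun j hj => hasSum_sum fun b _ => ?_
    have hjh : j < h + 1 := mem_range.1 hj
    have hjh' : (j : ℝ) < (h : ℝ) + 1 := by exact_mod_cast hjh
    exact term_hasSum i j b (β j b) u hu0 (by linarith)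
  have h2 : (fun k : ℕ => (-1 : ℝ) ^ i * ((k + i).choose i : ℝ) * (mom h q β k : ℝ) *
      (u⁻¹) ^ (k + 1 + i)) = fun k : ℕ => ∑ j ∈ range (h + 1), ∑ b ∈ range q,
      ((-1 : ℝ) ^ i * ((k + i).choose i : ℝ) *
      ((β j b : ℝ) * ((k.choose b : ℝ) * (-(j : ℝ)) ^ (k - b))) * (u⁻¹) ^ (k + 1 + i)) := by
    funext k
    unfold mom
    push_cast
    rw [Finset.mul_sum, Finset.sum_mul]
    refine Finset.sum_congr rfl fun j _ => ?_
    rw [Finset.mul_sum, Finset.sum_mul]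
  rw [h2]
  exact h1

/-- the bound for the moments -/
theorem mom_le (h q k : ℕ) (β : ℕ → ℕ → ℤ) (Bd : ℝ) (hβ : ∀ j b, |(β j b : ℝ)| ≤ Bd) :
    |(mom h q β k : ℝ)| ≤ ((h : ℝ) + 1) * Bd * ((h : ℝ) + 1) ^ k := by
  have hBd : 0 ≤ Bd := (abs_nonneg _).trans (hβ 0 0)
  have h1 : ∀ j ∈ range (h + 1), |∑ b ∈ range q, (β j b : ℝ) *
      ((k.choose b : ℝ) * (-(j : ℝ)) ^ (k - b))| ≤ Bd * ((h : ℝ) + 1) ^ k := by
    intro j hj
    have hjh : j ≤ h := Nat.lt_succ_iff.1 (mem_range.1 hj)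
    have hjh' : (j : ℝ) ≤ (h : ℝ) := by exact_mod_cast hjh
    have hj0 : (0 : ℝ) ≤ j := Nat.cast_nonneg j
    calc |∑ b ∈ range q, (β j b : ℝ) * ((k.choose b : ℝ) * (-(j : ℝ)) ^ (k - b))|
        ≤ ∑ b ∈ range q, |(β j b : ℝ) * ((k.choose b : ℝ) * (-(j : ℝ)) ^ (k - b))| :=
          abs_sum_le_sum_abs _ _
      _ ≤ ∑ b ∈ range q, Bd * ((k.choose b : ℝ) * (j : ℝ) ^ (k - b)) := by
          refine sum_le_sum fun b _ => ?_
          rw [abs_mul, abs_mul, abs_pow, abs_neg, Nat.abs_cast, Nat.abs_cast]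
          exact mul_le_mul_of_nonneg_right (hβ j b) (by positivity)
      _ = Bd * ∑ b ∈ range q, (k.choose b : ℝ) * (j : ℝ) ^ (k - b) := by rw [mul_sum]
      _ ≤ Bd * ∑ b ∈ range (max q (k + 1)), (k.choose b : ℝ) * (j : ℝ) ^ (k - b) := by
          refine mul_le_mul_of_nonneg_left ?_ hBd
          refine sum_le_sum_of_subset_of_nonneg ?_ fun b _ _ => by positivity
          exact range_subset_range.2 (le_max_left _ _)
      _ = Bd * ∑ b ∈ range (k + 1), (k.choose b : ℝ) * (j : ℝ) ^ (k - b) := by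
          congr 1
          symm
          refine sum_subset (range_subset_range.2 (le_max_right _ _)) fun b _ hb => ?_
          rw [mem_range, not_lt] at hb
          rw [Nat.choose_eq_zero_of_lt (by omega)]
          simp
      _ = Bd * (1 + (j : ℝ)) ^ k := by
          congr 1
          rw [add_pow]
          refine sum_congr rfl fun b _ => ?_
          rw [one_pow, one_mul, mul_comm]
      _ ≤ Bd * ((h : ℝ) + 1) ^ k := by
          refine mul_le_mul_of_nonneg_left ?_ hBd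
          exact pow_le_pow_left₀ (by linarith) (by linarith) k
  have h2 : (mom h q β k : ℝ) = ∑ j ∈ range (h + 1), ∑ b ∈ range q, (β j b : ℝ) *
      ((k.choose b : ℝ) * (-(j : ℝ)) ^ (k - b)) := by
    unfold mom
    push_cast
    rfl
  rw [h2]
  calc |∑ j ∈ range (h + 1), ∑ b ∈ range q, (β j b : ℝ) *
        ((k.choose b : ℝ) * (-(j : ℝ)) ^ (k - b))|
      ≤ ∑ j ∈ range (h + 1), |∑ b ∈ range q, (β j b : ℝ) *
        ((k.choose b : ℝ) * (-(j : ℝ)) ^ (k - b))| := abs_sum_le_sum_abs _ _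
    _ ≤ ∑ _j ∈ range (h + 1), Bd * ((h : ℝ) + 1) ^ k := sum_le_sum h1
    _ = ((h : ℝ) + 1) * Bd * ((h : ℝ) + 1) ^ k := by
        rw [sum_const, card_range, nsmul_eq_mul]
        push_cast
        ring

theorem hTOP : StTOP := by
  intro h q M i β Bd u hβ hmom hu
  have hBd : 0 ≤ Bd := (abs_nonneg _).trans (hβ 0 0)
  have hh0 : (0 : ℝ) ≤ h := Nat.cast_nonneg h
  have hu0 : 0 < u := by linarith
  have hu1 : 1 ≤ u := by linarith
  have h1 := fI_hasSum h q i β u hu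
  have h2 := (hasSum_nat_add_iff' M).2 h1
  have h3 : ∑ k ∈ range M, (-1 : ℝ) ^ i * ((k + i).choose i : ℝ) * (mom h q β k : ℝ) *
      (u⁻¹) ^ (k + 1 + i) = 0 := by
    refine sum_eq_zero fun k hk => ?_
    rw [hmom k (mem_range.1 hk)]
    simp
  rw [h3, sub_zero] at h2
  set ρ : ℝ := 2 * ((h : ℝ) + 1) / u with hρ
  have hρ0 : 0 ≤ ρ := by positivity
  have hρ1 : ρ ≤ 1 / 2 := by
    rw [hρ, div_le_iff₀ hu0]
    linarith
  have hui : 0 < u⁻¹ := inv_pos.2 hu0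
  have hui1 : u⁻¹ ≤ 1 := inv_le_one_of_one_le₀ hu1
  have h4 : ∀ n : ℕ, ‖(-1 : ℝ) ^ i * ((n + M + i).choose i : ℝ) * (mom h q β (n + M) : ℝ) *
      (u⁻¹) ^ (n + M + 1 + i)‖ ≤ (((h : ℝ) + 1) * Bd * 2 ^ i * ρ ^ M) * ρ ^ n := by
    intro n
    rw [norm_mul, norm_mul, norm_mul, norm_pow, norm_neg, norm_one, one_pow, one_mul,
      Real.norm_eq_abs, Real.norm_eq_abs, Real.norm_eq_abs, Nat.abs_cast,
      abs_of_nonneg (pow_nonneg hui.le _)]
    have a1 : ((n + M + i).choose i : ℝ) ≤ 2 ^ (n + M + i) := by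
      exact_mod_cast Nat.choose_le_two_pow (n + M + i) i
    have a2 := mom_le h q (n + M) β Bd hβ
    have a3 : (u⁻¹) ^ (n + M + 1 + i) ≤ (u⁻¹) ^ (n + M) := by
      have : n + M + 1 + i = (n + M) + (1 + i) := by ring
      rw [this, pow_add]
      exact mul_le_of_le_one_right (by positivity) (pow_le_one₀ hui.le hui1)
    calc ((n + M + i).choose i : ℝ) * |(mom h q β (n + M) : ℝ)| * (u⁻¹) ^ (n + M + 1 + i)
        ≤ 2 ^ (n + M + i) * (((h : ℝ) + 1) * Bd * ((h : ℝ) + 1) ^ (n + M)) *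
          (u⁻¹) ^ (n + M) := by
          gcongr
      _ = (((h : ℝ) + 1) * Bd * 2 ^ i) * (2 * ((h : ℝ) + 1) * u⁻¹) ^ (n + M) := by
          rw [mul_pow, mul_pow, pow_add 2 (n + M) i]
          ring
      _ = (((h : ℝ) + 1) * Bd * 2 ^ i * ρ ^ M) * ρ ^ n := by
          rw [← div_eq_mul_inv, ← hρ, pow_add]
          ring
  have h5 : HasSum (fun n : ℕ => (((h : ℝ) + 1) * Bd * 2 ^ i * ρ ^ M) * ρ ^ n)
      ((((h : ℝ) + 1) * Bd * 2 ^ i * ρ ^ M) * (1 - ρ)⁻¹) :=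
    (hasSum_geometric_of_lt_one hρ0 (by linarith)).mul_left _
  have h6 := h2.norm_le_of_bounded h5 h4
  rw [Real.norm_eq_abs] at h6
  have h7 : (1 - ρ)⁻¹ ≤ 2 := by
    rw [inv_le_comm₀ (by linarith) (by norm_num)]
    linarith
  calc |fI h q β i u| ≤ (((h : ℝ) + 1) * Bd * 2 ^ i * ρ ^ M) * (1 - ρ)⁻¹ := h6
    _ ≤ (((h : ℝ) + 1) * Bd * 2 ^ i * ρ ^ M) * 2 := mul_le_mul_of_nonneg_left h7 (by positivity)
    _ = 2 * ((h : ℝ) + 1) * Bd * 2 ^ i * ρ ^ M := by ring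

end Pool.Agent.Helper64.XG
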